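import Pool.Agent.Y164.NZ.StmT
import Pool.Agent.Y713.TG.Gdd

/-!
There are no new points of order `(1 - s) ^ 2` over `F` (NZT-FIX).
-/

set_option autoImplicit false
set_option linter.all false

open Polynomial IsDedekindDomain
open scoped Classical

namespace Pool.Agent.Y141.NZ.Fix

open Pool.Agent.Y713.SE
open Pool.Agent.Y713.SE.Dat
open Pool.Agent.TH115.GD (pl Comp Sep)
open Pool.Agent.Y164.NZ

section root
variable {k k' : Type} [Field k] [Field k'] [Algebra k k']

theorem rm_pow {p : k'[X]} {θ : k'} (hp : p ≠ 0) (u : ℕ) :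
    rootMultiplicity θ (p ^ u) = u * rootMultiplicity θ p := by
  induction u with
  | zero => simp
  | succ u ih =>
    rw [pow_succ, rootMultiplicity_mul (mul_ne_zero (pow_ne_zero _ hp) hp), ih]
    ring

theorem rm_tw {P b : k[X]} (hP : P.Separable) (hP0 : P ≠ 0) (hc : IsCoprime P b) {θ : k'}
    (hθ : aeval θ P = 0) (hb : b ≠ 0) (u : ℕ) :
    rootMultiplicity θ ((P ^ u * b).map (algebraMap k k')) = u := by
  have h0 : P.map (algebraMap k k') ≠ 0 :=
    (Polynomial.map_ne_zero_iff (algebraMap k k').injective).2 hP0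
  have hb0 : b.map (algebraMap k k') ≠ 0 :=
    (Polynomial.map_ne_zero_iff (algebraMap k k').injective).2 hb
  have h1 : rootMultiplicity θ (P.map (algebraMap k k')) = 1 := by
    apply le_antisymm
    · exact rootMultiplicity_le_one_of_separable hP.map θ
    · rw [Nat.one_le_iff_ne_zero, ← Nat.pos_iff_ne_zero, rootMultiplicity_pos h0]
      show eval θ _ = 0
      rwa [eval_map_algebraMap]
  have h2 : rootMultiplicity θ (b.map (algebraMap k k')) = 0 := by
    apply rootMultiplicity_eq_zero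
    intro h3
    have h4 : aeval θ b = 0 := by
      have : eval θ (b.map (algebraMap k k')) = 0 := h3
      rwa [eval_map_algebraMap] at this
    obtain ⟨x, y, hxy⟩ := hc
    have h5 := congrArg (aeval θ) hxy
    rw [map_add, map_mul, map_mul, hθ, h4, mul_zero, mul_zero, add_zero, map_one] at h5
    exact zero_ne_one h5
  rw [Polynomial.map_mul, Polynomial.map_pow,
    rootMultiplicity_mul (mul_ne_zero (pow_ne_zero _ h0) hb0), rm_pow h0, h1, h2]
  ring

end root

theorem fix : S_FIX := by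
  intro ℓ n k k' K F Ω _ _ _ _ _ _ _ _ _ _ _ _ _ _ _ _ _ _ _ _ hKF D P u b hG Q hfix h2
  haveI : IsSepClosed k' := IsSepClosure.sep_closed k
  haveI := Fact.mk D.hp
  have hℓ : (ℓ : k') ≠ 0 := by
    have h1 : algebraMap k k' (ℓ : k) ≠ 0 := by
      rw [Ne, map_eq_zero]
      exact Nat.cast_ne_zero.2 D.hp.ne_zero
    rwa [map_natCast] at h1
  have hn : (n : ZMod ℓ) ≠ 0 := by
    rw [Ne, ZMod.natCast_eq_zero_iff]
    exact D.hn
  have hu : (u : ZMod ℓ) ≠ 0 := by
    rw [Ne, ZMod.natCast_eq_zero_iff]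
    exact hG.hu
  have hP0 : P ≠ 0 := hG.mon.ne_zero
  have hs : P.Separable := PerfectField.separable_iff_squarefree.2 hG.sq
  have hd : P.natDegree ≠ 0 := by
    intro h
    apply hG.deg
    rw [h]
    exact dvd_zero _
  obtain ⟨θ, hθ⟩ : ∃ θ : k', aeval θ P = 0 := by
    have h1 : (P.map (algebraMap k k')).Splits := IsSepClosed.splits_of_separable _ hs.map
    have h3 : (P.map (algebraMap k k')).degree ≠ 0 := by
      rw [degree_map, Polynomial.degree_eq_natDegree hP0]
      exact_mod_cast hd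
    obtain ⟨θ, hθ⟩ := h1.exists_eval_eq_zero h3
    exact ⟨θ, by rwa [eval_map_algebraMap] at hθ⟩
  obtain ⟨p, hp⟩ := ExpChar.exists Ω
  haveI := hp
  obtain ⟨m, hm⟩ := (D.base Ω).phi_ker (p := p) (phi_eq_one_iff.1 h2)
  rw [← cl_PT] at hm
  have hQ := phi_eq_iff.1 hm
  have hov : ∀ i j, i ≠ j →
      ov ℓ (pl (k' := k') θ) (algebraMap K F (D.e i - D.e j)) = -(u : ZMod ℓ) := by
    intro i j hij
    have h1 : D.e i - D.e j = algebraMap k[X] K (P ^ u * (b i - b j)) := by
      rw [hG.he, hG.he, ← map_sub, mul_sub]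
    have hb : b i - b j ≠ 0 := by
      intro h0
      rw [h0, mul_zero, map_zero] at h1
      exact hij (D.he (sub_eq_zero.1 h1))
    rw [h1, hKF, ov_poly ℓ θ ((Polynomial.map_ne_zero_iff (algebraMap k k').injective).2
      (mul_ne_zero (pow_ne_zero _ hP0) hb)), rm_tw hs hP0 (hG.cop i j hij) hθ hb]
  have key : ∀ i, (n : ZMod ℓ) * (m i : ZMod ℓ) = ∑ j, (m j : ZMod ℓ) := by
    intro i
    have h3 := D.fix_tors hG.hδ hℓ hQ hfix (pl (k' := k') θ) i
    have h4 : ∑ j ∈ Finset.univ.erase i, ((m i : ZMod ℓ) - m j) *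
        ov ℓ (pl (k' := k') θ) (algebraMap K F (D.e i - D.e j)) =
        -(u : ZMod ℓ) * ∑ j ∈ Finset.univ.erase i, ((m i : ZMod ℓ) - m j) := by
      rw [Finset.mul_sum]
      refine Finset.sum_congr rfl fun j hj => ?_
      rw [hov i j (Finset.ne_of_mem_erase hj).symm]
      ring
    rw [h4] at h3
    have h5 := (mul_eq_zero.1 h3).resolve_left (neg_ne_zero.2 hu)
    have h6 : ∑ j, ((m i : ZMod ℓ) - m j) = 0 := by
      rw [← Finset.add_sum_erase _ _ (Finset.mem_univ i), h5, sub_self, add_zero]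
    rw [Finset.sum_sub_distrib, Finset.sum_const, Finset.card_univ, Fintype.card_fin,
      nsmul_eq_mul] at h6
    exact sub_eq_zero.1 h6
  rw [hm]
  apply (D.base Ω).cl_PT_of_modEq
  intro i j
  exact (ZMod.natCast_eq_natCast_iff _ _ _).1
    (mul_left_cancel₀ hn ((key i).trans (key j).symm))

theorem t : S_FIX := fix

end Pool.Agent.Y141.NZ.Fix
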