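import Pool.Agent.Y164.NZ.Stm2
import Pool.Agent.Y164.SZ.Rp
import Pool.Agent.Y713.SE.Twist

/-!
The calculus modulo `ℓ`-th powers attached to a family over a discrete valuation ring (NZ-SYS).
-/

set_option autoImplicit false
set_option linter.all false

open Polynomial IsDedekindDomain
open scoped Classical

namespace Pool.Agent.Y141.NZ

open Finset
open Pool.Agent.Y713.SE Pool.Agent.Y164.SZ Pool.Agent.Y164.NZ
open Pool.Agent.Y164.PS (Fam)

section fld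
variable {k K : Type} [Field k] [Field K] [Algebra k[X] K] [IsFractionRing k[X] K]
variable {κ : Type} [Fintype κ]

theorem not_dvd {R : κ → k[X]} (hR : Fam R) {x y : κ} (h : x ≠ y) : ¬ R x ∣ R y := by
  intro hd
  exact h (hR.inj (eq_of_monic_of_associated (hR.mon x) (hR.mon y)
    ((hR.irr x).associated_of_dvd (hR.irr y) hd)))

theorem cop {R : κ → k[X]} (hR : Fam R) {x y : κ} (h : x ≠ y) : IsCoprime (R x) (R y) :=
  ((hR.irr x).coprime_iff_not_dvd).2 (not_dvd hR h)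

theorem not_dvd_prod {R : κ → k[X]} (hR : Fam R) (x0 : κ) {c : k} (hc : c ≠ 0) (s : Finset κ)
    (hs : x0 ∉ s) (n : κ → ℕ) : ¬ R x0 ∣ C c * ∏ x ∈ s, R x ^ n x := by
  intro h
  rcases (hR.irr x0).prime.dvd_or_dvd h with h | h
  · exact (hR.irr x0).not_isUnit (isUnit_of_dvd_unit h (isUnit_C.2 (isUnit_iff_ne_zero.2 hc)))
  · rw [(hR.irr x0).prime.dvd_finset_prod_iff] at h
    obtain ⟨y, hy, h⟩ := h
    have h1 := (hR.irr x0).prime.dvd_of_dvd_pow h
    refine not_dvd hR ?_ h1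
    rintro rfl
    exact hs hy

theorem val_el {R : κ → k[X]} (hR : Fam R) (x0 : κ) {c : k} (hc : c ≠ 0) (n : κ → ℕ) :
    (hp (R x0) (hR.irr x0)).valuation K (algebraMap k[X] K (C c * ∏ x, R x ^ n x)) =
      (WithZero.exp (-1 : ℤ)) ^ n x0 := by
  have e : C c * ∏ x, R x ^ n x = R x0 ^ n x0 * (C c * ∏ x ∈ univ.erase x0, R x ^ n x) := by
    rw [← mul_prod_erase univ _ (mem_univ x0)]
    ring
  have h1 : (hp (R x0) (hR.irr x0)).valuation K
      (algebraMap k[X] K (C c * ∏ x ∈ univ.erase x0, R x ^ n x)) = 1 :=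
    (val_eq_one_iff _ _).2 fun hm =>
      not_dvd_prod hR x0 hc _ (notMem_erase _ _) n ((mem_hp _ _).1 hm)
  rw [e, map_mul, map_mul, map_pow, map_pow, val_hp_self, h1, mul_one]

theorem even_val' {ℓ : ℕ} (hℓ : ℓ.Prime) {R : κ → k[X]} (hR : Fam R) {d : K} {c : k} {n : κ → ℕ}
    {y : K} (hc : c ≠ 0) (hy : y ≠ 0)
    (hd : d = algebraMap k[X] K (C c * ∏ x, R x ^ n x) * y ^ ℓ) (x : κ)
    (h : Pw ℓ ((hp (R x) (hR.irr x)).valuation K d)) : ℓ ∣ n x := by
  apply pw_exp_pow hℓ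
  have hv : (hp (R x) (hR.irr x)).valuation K d =
      (WithZero.exp (-1 : ℤ)) ^ n x * ((hp (R x) (hR.irr x)).valuation K y) ^ ℓ := by
    rw [hd, map_mul, val_el hR x hc n, map_pow]
  have hvy : (hp (R x) (hR.irr x)).valuation K y ≠ 0 := (Valuation.ne_zero_iff _).2 hy
  rw [hv] at h
  have := h.mul (Pw.pow (ℓ := ℓ) ((hp (R x) (hR.irr x)).valuation K y)).inv
  rwa [mul_assoc, mul_inv_cancel₀ (pow_ne_zero _ hvy), mul_one] at this

end fld

section red
variable {O k F : Type} [CommRing O] [IsDomain O] [IsDiscreteValuationRing O]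
  [Field k] [Algebra O k] [IsFractionRing O k] [Field F]
variable {κ κ' : Type} [Fintype κ] [Fintype κ'] {ρ : O →+* F} {R : κ → F[X]} {R' : κ' → O[X]}
  {π : κ → κ'}

theorem fam_k (hL : Lft k ρ R R' π) : Fam fun x' => (R' x').map (algebraMap O k) where
  mon x := (hL.mon x).map _
  irr x := hL.irr x
  inj := by
    intro x y h
    exact hL.inj (Polynomial.map_injective _ (IsFractionRing.injective O k) h)

omit [IsDomain O] [IsDiscreteValuationRing O] [IsFractionRing O k] [Fintype κ] in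
theorem map_el (c : O) (n : κ' → ℕ) (s : Finset κ') :
    (C c * ∏ x' ∈ s, R' x' ^ n x').map (algebraMap O k) =
      C (algebraMap O k c) * ∏ x' ∈ s, ((R' x').map (algebraMap O k)) ^ n x' := by
  rw [Polynomial.map_mul, Polynomial.map_C, Polynomial.map_prod]
  simp only [Polynomial.map_pow]

theorem rho_unif (hρ : Function.Surjective ρ) {ϖ : O} (hϖ : Irreducible ϖ) (x : O) :
    ρ x = 0 ↔ ϖ ∣ x := by
  have h1 : (RingHom.ker ρ).IsMaximal := RingHom.ker_isMaximal_of_surjective ρ hρ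
  have h2 : RingHom.ker ρ = IsLocalRing.maximalIdeal O := IsLocalRing.eq_maximalIdeal h1
  rw [← RingHom.mem_ker, h2, (IsDiscreteValuationRing.irreducible_iff_uniformizer ϖ).1 hϖ,
    Ideal.mem_span_singleton]

/-- the reduction of a product of the lifts -/
theorem red_prod (hL : Lft k ρ R R' π) (x0 : κ') (r : O) (n : κ' → ℕ) :
    (C r * ∏ x' ∈ univ.erase x0, R' x' ^ n x').map ρ =
      C (ρ r) * ∏ x ∈ univ.filter (fun x => π x ≠ x0), R x ^ n (π x) := by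
  rw [Polynomial.map_mul, Polynomial.map_C, Polynomial.map_prod]
  congr 1
  rw [← Finset.prod_fiberwise_of_maps_to (s := univ.filter (fun x => π x ≠ x0))
    (t := univ.erase x0) (g := π) (fun x hx => mem_erase.2 ⟨(mem_filter.1 hx).2, mem_univ _⟩)]
  refine prod_congr rfl fun x' hx' => ?_
  rw [Polynomial.map_pow, hL.red, ← prod_pow]
  have : univ.filter (fun x => π x = x') =
      (univ.filter (fun x => π x ≠ x0)).filter (fun x => π x = x') := by
    ext x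
    simp only [mem_filter, mem_univ, true_and]
    constructor
    · intro h
      refine ⟨?_, h⟩
      rw [h]
      exact ne_of_mem_erase hx'
    · exact fun h => h.2
  rw [← this]
  refine prod_congr rfl fun x hx => ?_
  rw [(mem_filter.1 hx).2]

/-- cancellation of constants modulo a monic polynomial -/
theorem cancel_C {P Q : O[X]} (hP : P.Monic) {a : O} (ha : a ≠ 0) (h : P ∣ C a * Q) : P ∣ Q := by
  rw [← Polynomial.modByMonic_eq_zero_iff_dvd hP] at h ⊢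
  rw [← Polynomial.smul_eq_C_mul, Polynomial.smul_modByMonic, Polynomial.smul_eq_C_mul] at h
  rcases mul_eq_zero.1 h with h1 | h1
  · exact absurd (C_eq_zero.1 h1) ha
  · exact h1

/-- the heart: an `ℓ`-th power modulo `P` has no factor `ϖ` -/
theorem no_unif (hρ : Function.Surjective ρ) {ϖ : O} (hϖ : Irreducible ϖ) {ℓ : ℕ}
    {P G0 h : O[X]} (hP : P.Monic) (hsq : Squarefree (P.map ρ)) {e : ℕ} (he : 0 < e) (heℓ : e < ℓ)
    (hd : P ∣ h ^ ℓ - C (ϖ ^ e) * G0) : P.map ρ ∣ G0.map ρ := by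
  have hϖ0 : ρ ϖ = 0 := (rho_unif hρ hϖ ϖ).2 dvd_rfl
  have h1 : P.map ρ ∣ (h.map ρ) ^ ℓ := by
    have h2 := Polynomial.map_dvd ρ hd
    rw [Polynomial.map_sub, Polynomial.map_mul, Polynomial.map_C, map_pow, hϖ0,
      zero_pow he.ne', C_0, zero_mul, sub_zero, Polynomial.map_pow] at h2
    exact h2
  have h3 : P.map ρ ∣ h.map ρ := (hsq.dvd_pow_iff_dvd (by omega)).1 h1
  have h4 : (h %ₘ P).map ρ = 0 := by
    rw [Polynomial.map_modByMonic ρ hP]
    exact (Polynomial.modByMonic_eq_zero_iff_dvd (hP.map ρ)).2 h3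
  obtain ⟨h2, hh2⟩ : C ϖ ∣ h %ₘ P := by
    rw [Polynomial.C_dvd_iff_dvd_coeff]
    intro i
    rw [← rho_unif hρ hϖ, ← Polynomial.coeff_map, h4, coeff_zero]
  have h5 : P ∣ h - C ϖ * h2 := by
    rw [← hh2]
    have := Polynomial.modByMonic_add_div h P
    exact ⟨h /ₘ P, by linear_combination -this⟩
  have h6 : P ∣ (C ϖ * h2) ^ ℓ - C (ϖ ^ e) * G0 := by
    have h7 : P ∣ h ^ ℓ - (C ϖ * h2) ^ ℓ := h5.trans (sub_dvd_pow_sub_pow _ _ _)
    have := dvd_sub hd h7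
    have e1 : h ^ ℓ - C (ϖ ^ e) * G0 - (h ^ ℓ - (C ϖ * h2) ^ ℓ) =
        (C ϖ * h2) ^ ℓ - C (ϖ ^ e) * G0 := by ring
    rwa [e1] at this
  have h8 : (C ϖ * h2) ^ ℓ - C (ϖ ^ e) * G0 =
      C (ϖ ^ e) * (C (ϖ ^ (ℓ - e)) * h2 ^ ℓ - G0) := by
    have e2 : (C ϖ : O[X]) ^ ℓ = C (ϖ ^ e) * C (ϖ ^ (ℓ - e)) := by
      rw [← C_pow, ← C_mul, ← pow_add, Nat.add_sub_cancel' heℓ.le]
    rw [mul_pow, e2]
    ring
  rw [h8] at h6
  have h9 := Polynomial.map_dvd ρ (cancel_C hP (pow_ne_zero _ hϖ.ne_zero) h6)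
  rw [Polynomial.map_sub, Polynomial.map_mul, Polynomial.map_C, map_pow, hϖ0,
    zero_pow (by omega), C_0, zero_mul, zero_sub] at h9
  exact (dvd_neg).1 h9

end red

section main
variable {ℓ : ℕ} [hℓ : Fact ℓ.Prime] {O k F K : Type} [CommRing O] [IsDomain O]
  [IsDiscreteValuationRing O]
  [Field k] [Algebra O k] [IsFractionRing O k] [Field F] [Fintype F] [DecidableEq F]
  [Field K] [Algebra k[X] K] [IsFractionRing k[X] K]
variable {κ κ' : Type} [Fintype κ] [Fintype κ'] {ρ : O →+* F} {R : κ → F[X]} {R' : κ' → O[X]}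
  {π : κ → κ'} {ϖ : O}

theorem L_pow' (S : SYM0 ℓ F) {f g : F[X]} (hg : g ≠ 0) (hf : f ≠ 0) (h : IsCoprime f g) (n : ℕ) :
    L ℓ (f ^ n) g = (n : ZMod ℓ) * L ℓ f g := by
  have h1 := S.L_prod_left ℕ (Finset.range n) (fun _ => f) g hg (fun _ _ => hf) (fun _ _ => h)
  rw [Finset.prod_const, Finset.card_range, Finset.sum_const, Finset.card_range,
    nsmul_eq_mul] at h1
  exact h1

theorem map_ne {r : O} (hr : ρ r ≠ 0) (hϖ : Irreducible ϖ) (e : ℕ) :
    algebraMap O k (ϖ ^ e * r) ≠ 0 := by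
  intro h
  have h1 : ϖ ^ e * r = 0 := IsFractionRing.injective O k (by rw [h, map_zero])
  rcases mul_eq_zero.1 h1 with h2 | h2
  · exact pow_ne_zero _ hϖ.ne_zero h2
  · exact hr (by rw [h2, map_zero])

theorem rp_ne (hL : Lft k ρ R R' π) (hϖ : Irreducible ϖ) {d : K} {ω c : ZMod ℓ}
    {u : κ → ZMod ℓ} (h : Rp ℓ k K ρ ϖ R' π d ω c u) : d ≠ 0 := by
  obtain ⟨e, r, n, y, hr, hy, -, -, -, rfl⟩ := h
  refine mul_ne_zero ?_ (pow_ne_zero _ hy)
  rw [Ne, IsFractionRing.to_map_eq_zero_iff, map_el]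
  exact mul_ne_zero (C_ne_zero.2 (map_ne hr hϖ e))
    (prod_ne_zero_iff.2 fun x _ => pow_ne_zero _ ((fam_k hL).mon x).ne_zero)

theorem rp_one (S : SYM0 ℓ F) : Rp ℓ k K ρ ϖ R' π (1 : K) 0 0 (0 : κ → ZMod ℓ) := by
  refine ⟨0, 1, 0, 1, by simp, one_ne_zero, by simp, ?_, fun x => by simp, ?_⟩
  · rw [map_one]
    exact ch_one S
  · simp

theorem rp_mul (S : SYM0 ℓ F) {d d' : K} {ω ω' c c' : ZMod ℓ} {u u' : κ → ZMod ℓ}
    (h : Rp ℓ k K ρ ϖ R' π d ω c u) (h' : Rp ℓ k K ρ ϖ R' π d' ω' c' u') :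
    Rp ℓ k K ρ ϖ R' π (d * d') (ω + ω') (c + c') (fun x => u x + u' x) := by
  obtain ⟨e, r, n, y, hr, hy, he, hc, hu, rfl⟩ := h
  obtain ⟨e', r', n', y', hr', hy', he', hc', hu', rfl⟩ := h'
  refine ⟨e + e', r * r', n + n', y * y', ?_, mul_ne_zero hy hy', ?_, ?_, fun x => ?_, ?_⟩
  · rw [map_mul]
    exact mul_ne_zero hr hr'
  · rw [Nat.cast_add, he, he']
  · rw [map_mul, S.ch_mul _ _ hr hr', hc, hc']
  · rw [Pi.add_apply, Nat.cast_add, hu, hu']
  · have e1 : (C (ϖ ^ (e + e') * (r * r')) * ∏ x', R' x' ^ (n + n') x' : O[X]) =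
        (C (ϖ ^ e * r) * ∏ x', R' x' ^ n x') * (C (ϖ ^ e' * r') * ∏ x', R' x' ^ n' x') := by
      simp only [Pi.add_apply, pow_add, prod_mul_distrib, C_mul]
      ring
    rw [e1]
    generalize (C (ϖ ^ e * r) * ∏ x', R' x' ^ n x' : O[X]) = A
    generalize (C (ϖ ^ e' * r') * ∏ x', R' x' ^ n' x' : O[X]) = B
    rw [Polynomial.map_mul, map_mul]
    ring

theorem rp_pow_mul {d : K} {ω c : ZMod ℓ} {u : κ → ZMod ℓ} {z : K}
    (h : Rp ℓ k K ρ ϖ R' π d ω c u) (hz : z ≠ 0) : Rp ℓ k K ρ ϖ R' π (z ^ ℓ * d) ω c u := by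
  obtain ⟨e, r, n, y, hr, hy, he, hc, hu, rfl⟩ := h
  exact ⟨e, r, n, z * y, hr, mul_ne_zero hz hy, he, hc, hu, by ring⟩

theorem rp_val (hL : Lft k ρ R R' π) (hϖ : Irreducible ϖ) {d : K} {ω c : ZMod ℓ}
    {u : κ → ZMod ℓ} (h : Rp ℓ k K ρ ϖ R' π d ω c u) (y : κ)
    (hpw : Pw ℓ ((hp ((R' (π y)).map (algebraMap O k)) (hL.irr (π y))).valuation K d)) :
    u y = 0 := by
  obtain ⟨e, r, n, z, hr, hz, he, hc, hu, hd⟩ := h
  rw [map_el] at hd
  rw [← hu y, ZMod.natCast_eq_zero_iff]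
  exact even_val' hℓ.out (fam_k hL) (map_ne hr hϖ e) hz hd (π y) hpw

/-- not divisible after reduction -/
theorem not_dvd_red (hR : Fam R) (y : κ) {r : F} (hr : r ≠ 0) (n : κ → ℕ) :
    ¬ R y ∣ C r * ∏ x ∈ univ.filter (fun x => π x ≠ π y), R x ^ n x :=
  not_dvd_prod hR y hr _ (by simp) n

theorem L_red (S : SYM0 ℓ F) (hR : Fam R) (y : κ) {r : F} (hr : r ≠ 0) (n : κ → ℕ)
    (hn : ∀ x, π x = π y → (n x : ZMod ℓ) = 0) :
    L ℓ (C r * ∏ x ∈ univ.filter (fun x => π x ≠ π y), R x ^ n x) (R y) =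
      ∑ x, (n x : ZMod ℓ) * L ℓ (R x) (R y) + ((R y).natDegree : ZMod ℓ) * ch ℓ r := by
  have h0 := (hR.irr y).ne_zero
  have hne : ∀ x ∈ univ.filter (fun x => π x ≠ π y), x ≠ y := by
    rintro x hx rfl
    exact (mem_filter.1 hx).2 rfl
  have hcop : ∀ x ∈ univ.filter (fun x => π x ≠ π y), IsCoprime (R x ^ n x) (R y) := fun x hx =>
    (cop hR (hne x hx)).pow_left
  have hC : IsCoprime (C r) (R y) :=
    ⟨C r⁻¹, 0, by rw [← C_mul, inv_mul_cancel₀ hr, zero_mul, add_zero, C_1]⟩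
  rw [S.L_mul_left _ _ _ h0 (C_ne_zero.2 hr)
    (Finset.prod_ne_zero_iff.2 fun x _ => pow_ne_zero _ (hR.mon x).ne_zero) hC
    (IsCoprime.prod_left hcop), S.L_C r _ hr, S.L_prod_left κ _ _ _ h0
    (fun x _ => pow_ne_zero _ (hR.mon x).ne_zero) hcop, add_comm]
  congr 1
  rw [← Finset.sum_filter_add_sum_filter_not univ (fun x => π x ≠ π y)
    (fun x => (n x : ZMod ℓ) * L ℓ (R x) (R y))]
  have h2 : ∑ x ∈ univ.filter (fun x => ¬ π x ≠ π y), (n x : ZMod ℓ) * L ℓ (R x) (R y) = 0 := by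
    refine Finset.sum_eq_zero fun x hx => ?_
    rw [hn x (not_not.1 (mem_filter.1 hx).2), zero_mul]
  rw [h2, add_zero]
  exact Finset.sum_congr rfl fun x hx =>
    L_pow' S h0 (hR.mon x).ne_zero (cop hR (hne x hx)) _

theorem rp_loc (hRED : S_RED) (S : SYM0 ℓ F) (hρ : Function.Surjective ρ) (hϖ : Irreducible ϖ)
    (hR : Fam R) (hL : Lft k ρ R R' π) {d : K} {ω c : ZMod ℓ}
    {u : κ → ZMod ℓ} (h : Rp ℓ k K ρ ϖ R' π d ω c u) (y : κ)
    (hz : ∃ z : (hp ((R' (π y)).map (algebraMap O k)) (hL.irr (π y))).adicCompletion K,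
      algebraMap K _ d = z ^ ℓ) :
    ω = 0 ∧ u y = 0 ∧
      ∑ x, u x * L ℓ (R x) (R y) + ((R y).natDegree : ZMod ℓ) * c = 0 := by
  obtain ⟨e, r, n, y0, hr, hy0, he, hc, hu, hd⟩ := h
  have hFk := fam_k hL
  set v := hp ((R' (π y)).map (algebraMap O k)) (hL.irr (π y)) with hvdef
  obtain ⟨z, hz⟩ := hz
  have hpw : Pw ℓ (v.valuation K d) := by
    refine ⟨Valued.v z, ?_⟩
    rw [← val_coe, hz, map_pow]
  have hdk := hd
  rw [map_el] at hdk
  have hny : ℓ ∣ n (π y) := even_val' hℓ.out hFk (map_ne hr hϖ e) hy0 hdk (π y) hpw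
  obtain ⟨b, hb⟩ := hny
  obtain ⟨q, hq⟩ : ∃ q, q = e / ℓ := ⟨_, rfl⟩
  obtain ⟨e', he'⟩ : ∃ e', e' = e % ℓ := ⟨_, rfl⟩
  have hqe : e = ℓ * q + e' := by rw [hq, he']; exact (Nat.div_add_mod e ℓ).symm
  have hel : e' < ℓ := by rw [he']; exact Nat.mod_lt _ hℓ.out.pos
  obtain ⟨P, hP⟩ : ∃ P, P = (R' (π y)).map (algebraMap O k) := ⟨_, rfl⟩
  have hP0 : P ≠ 0 := by rw [hP]; exact (hFk.mon (π y)).ne_zero
  have hPK : algebraMap k[X] K P ≠ 0 := by
    rw [Ne, IsFractionRing.to_map_eq_zero_iff]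
    exact hP0
  have hϖk : algebraMap O k ϖ ≠ 0 := by
    intro h0
    exact hϖ.ne_zero (IsFractionRing.injective O k (by rw [h0, map_zero]))
  have hCK : algebraMap k[X] K (C (algebraMap O k ϖ)) ≠ 0 := by
    rw [Ne, IsFractionRing.to_map_eq_zero_iff]
    exact C_ne_zero.2 hϖk
  obtain ⟨G0, hG0⟩ : ∃ G0 : O[X], G0 = C r * ∏ x' ∈ univ.erase (π y), R' x' ^ n x' := ⟨_, rfl⟩
  obtain ⟨G, hG⟩ : ∃ G : O[X], G = C (ϖ ^ e') * G0 := ⟨_, rfl⟩
  have hGk : G.map (algebraMap O k) = C (algebraMap O k (ϖ ^ e' * r)) *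
      ∏ x' ∈ univ.erase (π y), ((R' x').map (algebraMap O k)) ^ n x' := by
    rw [← map_el, hG, hG0, C_mul, mul_assoc]
  obtain ⟨w, hw⟩ : ∃ w : K, w = (algebraMap k[X] K (C (algebraMap O k ϖ))) ^ q *
      (algebraMap k[X] K P) ^ b * y0 := ⟨_, rfl⟩
  have hw0 : w ≠ 0 := by
    rw [hw]
    exact mul_ne_zero (mul_ne_zero (pow_ne_zero _ hCK) (pow_ne_zero _ hPK)) hy0
  have e2 : d = algebraMap k[X] K (G.map (algebraMap O k)) * w ^ ℓ := by
    rw [hdk, hGk, ← mul_prod_erase univ _ (mem_univ (π y)), hb, ← hP, hw, hqe]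
    rw [pow_add, pow_mul, map_mul (algebraMap O k), map_mul (algebraMap O k),
      map_mul (algebraMap O k), map_pow (algebraMap O k) (ϖ ^ ℓ), map_pow (algebraMap O k) ϖ ℓ,
      C_mul, C_mul, C_mul, C_pow, C_pow]
    simp only [map_mul, map_pow, mul_pow]
    ring
  have hxr : ∃ x' : v.adicCompletion K,
      algebraMap K (v.adicCompletion K) (algebraMap k[X] K (G.map (algebraMap O k))) = x' ^ ℓ := by
    refine ⟨z / algebraMap K _ w, ?_⟩
    have e3 : algebraMap K (v.adicCompletion K) d =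
        algebraMap K (v.adicCompletion K) (algebraMap k[X] K (G.map (algebraMap O k))) *
          (algebraMap K (v.adicCompletion K) w) ^ ℓ := by
      rw [← map_pow (algebraMap K (v.adicCompletion K)),
        ← map_mul (algebraMap K (v.adicCompletion K)), ← e2]
    rw [div_pow, ← hz, e3, mul_div_cancel_right₀]
    exact pow_ne_zero _ ((_root_.map_ne_zero _).2 hw0)
  have hnd : ¬ P ∣ G.map (algebraMap O k) := by
    rw [hGk, hP]
    exact not_dvd_prod hFk (π y) (map_ne hr hϖ e') _ (notMem_erase _ _) n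
  have hrv : G.map (algebraMap O k) ∉ v.asIdeal := fun hm => hnd (by
    rw [hP]
    exact (mem_hp _ _).1 hm)
  obtain ⟨a, ha⟩ := pow_unit hℓ.out.ne_zero v hrv hxr
  rw [hvdef, mem_hp] at ha
  have hsq : Squarefree ((R' (π y)).map ρ) := by
    rw [hL.red]
    refine Finset.squarefree_prod_of_pairwise_isCoprime ?_ fun x _ => (hR.irr x).squarefree
    intro x _ x' _ hxx
    exact (cop hR hxx).isRelPrime
  obtain ⟨g, hg⟩ := hRED O k F ρ hρ ℓ hℓ.out.ne_zero (R' (π y)) G (hL.mon _) (hL.irr _) hsq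
    ⟨a, by
      have := (dvd_neg (a := (R' (π y)).map (algebraMap O k))).2 ha
      rwa [neg_sub] at this⟩
  have hG0ρ : G0.map ρ = C (ρ r) * ∏ x ∈ univ.filter (fun x => π x ≠ π y), R x ^ n (π x) := by
    rw [hG0]
    exact red_prod hL (π y) r n
  have hRy : R y ∣ (R' (π y)).map ρ := by
    rw [hL.red]
    exact dvd_prod_of_mem R (mem_filter.2 ⟨mem_univ y, rfl⟩)
  have hnd0 : ¬ R y ∣ G0.map ρ := by
    rw [hG0ρ]
    exact not_dvd_red hR y hr (fun x => n (π x))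
  have he0 : e' = 0 := by
    by_contra hne
    have h1 := no_unif hρ hϖ (hL.mon (π y)) hsq (Nat.pos_of_ne_zero hne) hel (G0 := G0) (h := g)
      (by rw [← hG]; exact hg)
    exact hnd0 (hRy.trans h1)
  have hun : ∀ x, π x = π y → (n (π x) : ZMod ℓ) = 0 := by
    intro x hx
    rw [hx, hb, Nat.cast_mul, ZMod.natCast_self, zero_mul]
  refine ⟨?_, ?_, ?_⟩
  · rw [← he, hqe, he0, add_zero, Nat.cast_mul, ZMod.natCast_self, zero_mul]
  · rw [← hu y]
    exact hun y rfl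
  · have h1 : R y ∣ (g.map ρ) ^ ℓ - G0.map ρ := by
      have h2 := Polynomial.map_dvd ρ hg
      rw [hG, he0, pow_zero, C_1, one_mul, Polynomial.map_sub, Polynomial.map_pow] at h2
      exact hRy.trans h2
    have h3 := (S.L_zero_iff _ _ (hR.mon y) (hR.irr y) hnd0).2 ⟨_, h1⟩
    rw [hG0ρ, L_red S hR y hr (fun x => n (π x)) hun, hc] at h3
    rw [← h3]
    congr 1
    exact Finset.sum_congr rfl fun x _ => by rw [hu x]

/-- constants over the fraction field of a discrete valuation ring -/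
theorem const_dec (hϖ : Irreducible ϖ) {c : k} (hc : c ≠ 0) :
    ∃ (e : ℕ) (r : O) (s : k), IsUnit r ∧ s ≠ 0 ∧ c = algebraMap O k (ϖ ^ e * r) * s ^ ℓ := by
  obtain ⟨a0, b0, hb0, rfl⟩ := IsFractionRing.div_surjective (A := O) c
  have hb : b0 ≠ 0 := nonZeroDivisors.ne_zero hb0
  have ha : a0 ≠ 0 := by
    rintro rfl
    simp at hc
  obtain ⟨i, u1, h1⟩ := IsDiscreteValuationRing.eq_unit_mul_pow_irreducible ha hϖ
  obtain ⟨j, u2, h2⟩ := IsDiscreteValuationRing.eq_unit_mul_pow_irreducible hb hϖ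
  have hA : algebraMap O k ϖ ≠ 0 := by
    intro h0
    exact hϖ.ne_zero (IsFractionRing.injective O k (by rw [h0, map_zero]))
  refine ⟨i + (ℓ - 1) * j, (u1 * u2⁻¹ : Oˣ), ((algebraMap O k ϖ) ^ j)⁻¹, Units.isUnit _,
    inv_ne_zero (pow_ne_zero _ hA), ?_⟩
  have hU : algebraMap O k (u2 : O) * algebraMap O k ((u2⁻¹ : Oˣ) : O) = 1 := by
    rw [← map_mul, Units.mul_inv, map_one]
  have hU2 : algebraMap O k (u2 : O) ≠ 0 := left_ne_zero_of_mul_eq_one hU
  have hℓ1 : ℓ = (ℓ - 1) + 1 := (Nat.sub_add_cancel hℓ.out.pos).symm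
  have hpow : (algebraMap O k ϖ) ^ ((ℓ - 1) * j) * (algebraMap O k ϖ) ^ j *
      (((algebraMap O k ϖ) ^ j)⁻¹) ^ ℓ = 1 := by
    rw [mul_comm (ℓ - 1) j, pow_mul, ← pow_succ, ← hℓ1, ← mul_pow,
      mul_inv_cancel₀ (pow_ne_zero _ hA), one_pow]
  rw [h1, h2]
  rw [div_eq_iff (by
    rw [map_mul, map_pow]
    exact mul_ne_zero hU2 (pow_ne_zero _ hA))]
  rw [map_mul, map_mul, map_mul, map_pow, map_pow, map_pow, Units.val_mul, map_mul, pow_add]
  calc algebraMap O k (u1 : O) * algebraMap O k ϖ ^ i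
      = algebraMap O k (u1 : O) * algebraMap O k ϖ ^ i *
        (algebraMap O k (u2 : O) * algebraMap O k ((u2⁻¹ : Oˣ) : O)) *
        ((algebraMap O k ϖ) ^ ((ℓ - 1) * j) * (algebraMap O k ϖ) ^ j *
          (((algebraMap O k ϖ) ^ j)⁻¹) ^ ℓ) := by rw [hU, hpow, mul_one, mul_one]
    _ = _ := by ring

theorem rp_exi (hπ : Function.Surjective π) (hϖ : Irreducible ϖ) (hL : Lft k ρ R R' π) {d : K}
    (hd : d ≠ 0) (h : ∀ v : HeightOneSpectrum k[X],
      (∀ y, v ≠ hp ((R' (π y)).map (algebraMap O k)) (hL.irr (π y))) →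
        Pw ℓ (v.valuation K d)) : ∃ ω c u, Rp ℓ k K ρ ϖ R' π d ω c u := by
  have hFk := fam_k hL
  obtain ⟨c, a, z, hc, hz, e⟩ := rep (K := K) hℓ.out
    (univ.image fun x' => (R' x').map (algebraMap O k)) (fun p hp => by
      obtain ⟨x, -, rfl⟩ := Finset.mem_image.1 hp
      exact hL.irr x) hd (fun v hv => h v fun y hy => by
        refine hv _ (Finset.mem_image_of_mem _ (Finset.mem_univ (π y))) ?_
        rw [hy, mem_hp])
  rw [Finset.prod_image (fun x _ y _ hxy => hFk.inj hxy)] at e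
  obtain ⟨e0, r, s, hr, hs, hcs⟩ := const_dec (ℓ := ℓ) hϖ hc
  have hs' : algebraMap k[X] K (C s) ≠ 0 := by
    rw [Ne, IsFractionRing.to_map_eq_zero_iff]
    exact C_ne_zero.2 hs
  refine ⟨(e0 : ZMod ℓ), ch ℓ (ρ r), fun x => (a ((R' (π x)).map (algebraMap O k)) : ZMod ℓ),
    e0, r, fun x' => a ((R' x').map (algebraMap O k)), algebraMap k[X] K (C s) * z,
    (hr.map ρ).ne_zero, mul_ne_zero hs' hz, rfl, rfl, fun _ => rfl, ?_⟩
  rw [e, map_el, hcs, C_mul, C_pow]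
  simp only [map_mul, map_pow, mul_pow]
  ring

theorem red_deg (hR : Fam R) (hL : Lft k ρ R R' π) (x' : κ') :
    (R' x').natDegree = ∑ x ∈ univ.filter (fun x => π x = x'), (R x).natDegree := by
  rw [← (hL.mon x').natDegree_map ρ, hL.red]
  exact natDegree_prod_of_monic _ _ fun x _ => hR.mon x

theorem rp_glo {ι τ : Type} [Fintype ι] [Fintype τ] {R : ι ⊕ τ → F[X]} {π : ι ⊕ τ → κ'}
    (hR : Fam R) (hπ : Function.Surjective π) (hϖ : Irreducible ϖ) (hL : Lft k ρ R R' π)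
    (hsep : ∀ (x : ι) (y : τ), π (Sum.inl x) ≠ π (Sum.inr y)) {d : K}
    (h : Rp ℓ k K ρ ϖ R' π d 0 0 (0 : ι ⊕ τ → ZMod ℓ))
    (hz : ∀ y : ι, ∃ z : (hp ((R' (π (Sum.inl y))).map (algebraMap O k))
      (hL.irr (π (Sum.inl y)))).adicCompletion K, algebraMap K _ d = z ^ ℓ)
    (hu : IsUnit (∑ y : ι, ((R (Sum.inl y)).natDegree : ZMod ℓ))) : ∃ z : K, d = z ^ ℓ := by
  have hFk := fam_k hL
  obtain ⟨e, r, n, y0, hr, hy0, he, hc, hn, hd⟩ := h
  rw [ZMod.natCast_eq_zero_iff] at he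
  obtain ⟨q, hq⟩ := he
  have hn2 : ∀ x', ∃ m, n x' = ℓ * m := by
    intro x'
    obtain ⟨x, rfl⟩ := hπ x'
    have h1 := hn x
    rw [Pi.zero_apply, ZMod.natCast_eq_zero_iff] at h1
    exact h1
  choose m hm using hn2
  have hrk : algebraMap O k r ≠ 0 := by
    have := map_ne (k := k) hr hϖ 0
    rwa [pow_zero, one_mul] at this
  have hϖk : algebraMap O k ϖ ≠ 0 := by
    intro h0
    exact hϖ.ne_zero (IsFractionRing.injective O k (by rw [h0, map_zero]))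
  obtain ⟨W, hW⟩ : ∃ W : k[X], W = C ((algebraMap O k ϖ) ^ q) *
      ∏ x', ((R' x').map (algebraMap O k)) ^ m x' := ⟨_, rfl⟩
  have hW0 : W ≠ 0 := by
    rw [hW]
    exact mul_ne_zero (C_ne_zero.2 (pow_ne_zero _ hϖk))
      (prod_ne_zero_iff.2 fun x _ => pow_ne_zero _ (hFk.mon x).ne_zero)
  have hWK : algebraMap k[X] K W ≠ 0 := by
    rw [Ne, IsFractionRing.to_map_eq_zero_iff]
    exact hW0
  obtain ⟨w, hw⟩ : ∃ w : K, w = algebraMap k[X] K W * y0 := ⟨_, rfl⟩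
  have hw0 : w ≠ 0 := by
    rw [hw]
    exact mul_ne_zero hWK hy0
  have e2 : d = algebraMap k[X] K (C (algebraMap O k r)) * w ^ ℓ := by
    have e3 : (C (ϖ ^ e * r) * ∏ x', R' x' ^ n x').map (algebraMap O k) =
        C (algebraMap O k r) * W ^ ℓ := by
      rw [map_el, hW, mul_pow, ← prod_pow, hq]
      have e4 : ∏ x', (R' x').map (algebraMap O k) ^ n x' =
          ∏ x', ((R' x').map (algebraMap O k) ^ m x') ^ ℓ :=
        prod_congr rfl fun x' _ => by rw [hm x', ← pow_mul, mul_comm ℓ]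
      rw [e4, map_mul, map_pow, C_mul, ← C_pow, ← pow_mul, mul_comm q ℓ]
      ring
    rw [hd, e3, map_mul, map_pow, hw, mul_pow]
    ring
  -- a place of degree prime to `ℓ`
  obtain ⟨y, hy⟩ : ∃ y : ι, ¬ ℓ ∣ (R' (π (Sum.inl y))).natDegree := by
    by_contra hcon
    push Not at hcon
    have h0 : ∑ y : ι, ((R (Sum.inl y)).natDegree : ZMod ℓ) = 0 := by
      rw [← Finset.sum_fiberwise_of_maps_to (s := univ) (t := univ.image fun y : ι =>
        π (Sum.inl y)) (g := fun y : ι => π (Sum.inl y))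
        (fun y _ => mem_image_of_mem _ (mem_univ y))]
      refine sum_eq_zero fun x' hx' => ?_
      obtain ⟨y, -, rfl⟩ := mem_image.1 hx'
      have h1 := red_deg hR hL (π (Sum.inl y))
      have h2 : ∑ x ∈ univ.filter (fun x => π x = π (Sum.inl y)), (R x).natDegree =
          ∑ y' ∈ univ.filter (fun y' : ι => π (Sum.inl y') = π (Sum.inl y)),
            (R (Sum.inl y')).natDegree := by
        rw [Finset.sum_filter, Finset.sum_filter, Fintype.sum_sum_type]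
        have h3 : ∑ t : τ, (if π (Sum.inr t) = π (Sum.inl y) then (R (Sum.inr t)).natDegree
            else 0) = 0 :=
          sum_eq_zero fun t _ => if_neg fun h => hsep y t h.symm
        rw [h3, add_zero]
      rw [h2] at h1
      rw [← Nat.cast_sum, ← h1, ZMod.natCast_eq_zero_iff]
      exact hcon y
    rw [h0] at hu
    exact not_isUnit_zero hu
  obtain ⟨x, hx⟩ := hz y
  have hx' : ∃ x : (hp ((R' (π (Sum.inl y))).map (algebraMap O k))
      (hL.irr (π (Sum.inl y)))).adicCompletion K,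
      algebraMap K ((hp ((R' (π (Sum.inl y))).map (algebraMap O k))
      (hL.irr (π (Sum.inl y)))).adicCompletion K)
        (algebraMap k[X] K (C (algebraMap O k r))) = x ^ ℓ := by
    refine ⟨x / algebraMap K _ w, ?_⟩
    rw [div_pow, ← hx, e2, map_mul, map_pow, mul_div_cancel_right₀]
    exact pow_ne_zero _ ((_root_.map_ne_zero _).2 hw0)
  have hcm : C (algebraMap O k r) ∉ (hp ((R' (π (Sum.inl y))).map (algebraMap O k))
      (hL.irr (π (Sum.inl y)))).asIdeal := (val_eq_one_iff (K := K) _ _).1 (val_C hrk)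
  obtain ⟨a, ha⟩ := pow_unit hℓ.out.ne_zero _ hcm hx'
  rw [mem_hp] at ha
  have hdeg : ¬ ℓ ∣ ((R' (π (Sum.inl y))).map (algebraMap O k)).natDegree := by
    rw [(hL.mon _).natDegree_map]
    exact hy
  obtain ⟨b, hb⟩ := const_stable hℓ.out (hL.irr (π (Sum.inl y))) hdeg ⟨a, ha⟩
  refine ⟨algebraMap k[X] K (C b) * w, ?_⟩
  rw [e2, mul_pow, ← map_pow, ← C_pow, ← hb]

end main

theorem t (hRED : S_RED) : S_SYS := by
  intro ℓ _ O k F _ _ _ _ _ _ _ _ _ K _ _ _ hS _ ρ hρ ϖ hϖ ι τ κ' _ _ _ R hR R' π hπ hL hsep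
  refine ⟨{
    rep := Rp ℓ k K ρ ϖ R' π
    pl := fun y => hp ((R' (π y)).map (algebraMap O k)) (hL.irr (π y))
    ne := fun h => rp_ne hL hϖ h
    one := rp_one hS
    mul := fun h h' => rp_mul hS h h'
    pow_mul := fun h hz => rp_pow_mul h hz
    val := fun h y hy => rp_val hL hϖ h y hy
    loc := fun h y hz => rp_loc hRED hS hρ hϖ hR hL h y hz
    exi := fun d hd h => rp_exi hπ hϖ hL hd h
    glo := fun d h hz hu => rp_glo hR hπ hϖ hL hsep h hz hu }, rfl, fun _ => rfl⟩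

end Pool.Agent.Y141.NZ
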